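import Pool.Agent.Helper13_Eng2.Stmts

/-!
Squad ENG2 (MP_da8eb3_al), modules GUO and GUT: elements of prime power order of the special
unitary group.
-/

set_option autoImplicit false

namespace Pool.Agent.Eng.H72

open Matrix

theorem eig_pow {F ι : Type} [Field F] [Fintype ι] [DecidableEq ι] (A : Matrix ι ι F)
    (N : ℕ) (hA : A ^ N = 1) (lam : AlgebraicClosure F) (h : Eig A lam) : lam ^ N = 1 := by
  set φ := algebraMap F (AlgebraicClosure F)
  set B : Matrix ι ι (AlgebraicClosure F) := A.map φ with hB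
  have h1 : (B.charpoly).eval lam = 0 := by
    rw [hB, Matrix.charpoly_map, Polynomial.eval_map]
    exact h
  rw [Matrix.eval_charpoly] at h1
  obtain ⟨v, hv, hv'⟩ := Matrix.exists_mulVec_eq_zero_iff.2 h1
  have h2 : B *ᵥ v = lam • v := by
    rw [Matrix.sub_mulVec, sub_eq_zero] at hv'
    rw [← hv']
    ext i
    simp [Matrix.scalar_apply, Matrix.mulVec_diagonal]
  have h3 : ∀ k : ℕ, (B ^ k) *ᵥ v = lam ^ k • v := by
    intro k
    induction k with
    | zero => simp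
    | succ k ih =>
      rw [pow_succ, ← Matrix.mulVec_mulVec, h2, Matrix.mulVec_smul, ih, smul_smul, pow_succ,
        mul_comm]
  have h4 : B ^ N = 1 := by
    have : (A ^ N).map φ = B ^ N := Matrix.map_pow A φ N
    rw [← this, hA]
    simp
  have h5 := h3 N
  rw [h4, Matrix.one_mulVec] at h5
  obtain ⟨i, hi⟩ := Function.ne_iff.1 hv
  have h6 := congrFun h5 i
  simp only [Pi.smul_apply, smul_eq_mul] at h6
  have h7 : (lam ^ N - 1) * v i = 0 := by rw [sub_mul, ← h6, one_mul, sub_self]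
  rcases mul_eq_zero.1 h7 with h8 | h8
  · exact sub_eq_zero.1 h8
  · exact absurd h8 hi

/-- an element of order `p ^ c` has an eigenvalue of order `p ^ c` -/
theorem exists_eig (hGEX : GexStmt) {K : Type} [Field K] [StarRing K] (p c n : ℕ)
    (g : SU n K) (hp : p.Prime) (hpK : (p : K) ≠ 0) (hc : 1 ≤ c) (hord : orderOf g = p ^ c) :
    ∃ mu : AlgebraicClosure K, Eig (g : Matrix (Fin n) (Fin n) K) mu ∧ orderOf mu = p ^ c := by
  set A : Matrix (Fin n) (Fin n) K := g.1 with hA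
  have hpow : ∀ m : ℕ, A ^ m = ((g ^ m : SU n K) : Matrix (Fin n) (Fin n) K) :=
    fun m => (SubmonoidClass.coe_pow g m).symm
  have hNA : A ^ (p ^ c) = 1 := by
    rw [hpow, ← hord, pow_orderOf_eq_one]; rfl
  have hN0 : ((p ^ c : ℕ) : K) ≠ 0 := by
    rw [Nat.cast_pow]
    exact pow_ne_zero _ hpK
  obtain ⟨mu, hmu, hmu'⟩ : ∃ mu : AlgebraicClosure K, Eig A mu ∧ mu ^ (p ^ (c - 1)) ≠ 1 := by
    by_contra hcon
    push Not at hcon
    have h1 := hGEX K (Fin n) A (p ^ c) (p ^ (c - 1)) 1 hN0 hNA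
      (fun lam hl => by rw [hcon lam hl, map_one])
    rw [one_smul, hpow] at h1
    have h1' : g ^ (p ^ (c - 1)) = 1 := Subtype.ext h1
    have h2 := orderOf_dvd_of_pow_eq_one h1'
    rw [hord] at h2
    have h3 := Nat.le_of_dvd (pow_pos hp.pos _) h2
    have h4 : p ^ (c - 1) < p ^ c := Nat.pow_lt_pow_right hp.one_lt (by omega)
    omega
  have hmuN : mu ^ (p ^ c) = 1 := eig_pow A _ hNA mu hmu
  refine ⟨mu, hmu, ?_⟩
  have hpf : Fact p.Prime := ⟨hp⟩
  obtain ⟨c', rfl⟩ : ∃ c', c = c' + 1 := ⟨c - 1, by omega⟩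
  exact orderOf_eq_prime_pow (by simpa using hmu') hmuN

/-- the order of `-q` modulo `N` -/
theorem exists_ord (N q n : ℕ) (hN : 0 < N)
    (h : ∃ j : ℕ, 0 < j ∧ j ≤ n ∧ (N : ℤ) ∣ (-(q : ℤ)) ^ j - 1) :
    ∃ e : ℕ, 0 < e ∧ e ≤ n ∧ ∀ j : ℕ, (N : ℤ) ∣ (-(q : ℤ)) ^ j - 1 ↔ e ∣ j := by
  have : NeZero N := ⟨hN.ne'⟩
  have key : ∀ j : ℕ, (N : ℤ) ∣ (-(q : ℤ)) ^ j - 1 ↔ (-(q : ZMod N)) ^ j = 1 := by
    intro j
    rw [← ZMod.intCast_zmod_eq_zero_iff_dvd]
    push_cast
    rw [sub_eq_zero]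
  obtain ⟨j, hj, hjn, hj1⟩ := h
  have hfin : IsOfFinOrder (-(q : ZMod N)) := isOfFinOrder_iff_pow_eq_one.2 ⟨j, hj, (key j).1 hj1⟩
  refine ⟨orderOf (-(q : ZMod N)), hfin.orderOf_pos,
    (orderOf_le_of_pow_eq_one hj ((key j).1 hj1)).trans hjn, ?_⟩
  intro j
  rw [key, orderOf_dvd_iff_pow_eq_one]

/-- the characteristic does not divide -/
theorem not_dvd_q {K : Type} [Field K] [Finite K] [StarRing K] {q p : ℕ} (hq : StarQ K q)
    (hp : p.Prime) (hpK : (p : K) ≠ 0) : ¬ p ∣ q := by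
  intro h
  obtain ⟨r, hr⟩ := CharP.exists K
  have hrp := CharP.char_is_prime K r
  have hrf : Fact r.Prime := ⟨hrp⟩
  have : Fintype K := Fintype.ofFinite K
  obtain ⟨k, _, hk⟩ := FiniteField.card K r
  have h1 : q ^ 2 = r ^ (k : ℕ) := by rw [← hq.card, Nat.card_eq_fintype_card, hk]
  have h2 : p ∣ r ^ (k : ℕ) := by
    rw [← h1]
    exact dvd_pow h (by norm_num)
  have h3 := (Nat.prime_dvd_prime_iff_eq hp hrp).1 (hp.dvd_of_dvd_pow h2)
  rw [h3] at hpK
  exact hpK (CharP.cast_eq_zero K r)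

/-- `N = p ^ c` divides one factor -/
theorem split_dvd {p c a : ℕ} (hp : p.Prime) (hp2 : p ≠ 2) (ha : 1 ≤ a)
    (h : p ^ c ∣ (a - 1) * (a + 1)) : p ^ c ∣ a - 1 ∨ p ^ c ∣ a + 1 := by
  by_cases hd : p ∣ a + 1
  · have hnp : ¬ p ∣ a - 1 := by
      intro h'
      have h7 : p ∣ 2 := by
        have : a + 1 = (a - 1) + 2 := by omega
        rw [this] at hd
        exact (Nat.dvd_add_right h').1 hd
      have := Nat.le_of_dvd (by norm_num) h7
      have := hp.two_le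
      omega
    have hcop : Nat.Coprime (p ^ c) (a - 1) :=
      Nat.Coprime.pow_left _ ((Nat.Prime.coprime_iff_not_dvd hp).2 hnp)
    exact Or.inr (hcop.dvd_of_dvd_mul_left h)
  · have hcop : Nat.Coprime (p ^ c) (a + 1) :=
      Nat.Coprime.pow_left _ ((Nat.Prime.coprime_iff_not_dvd hp).2 hd)
    exact Or.inl (hcop.dvd_of_dvd_mul_right h)

theorem even_dvd {N q i : ℕ} (hq : 1 ≤ q) :
    (N : ℤ) ∣ (-(q : ℤ)) ^ (2 * i) - 1 ↔ N ∣ q ^ (2 * i) - 1 := by
  have h1 : 1 ≤ q ^ (2 * i) := Nat.one_le_pow _ _ hq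
  have h2 : (-(q : ℤ)) ^ (2 * i) - 1 = ((q ^ (2 * i) - 1 : ℕ) : ℤ) := by
    rw [Nat.cast_sub h1, Even.neg_pow (even_two_mul i)]
    push_cast
    ring
  rw [h2, Int.natCast_dvd_natCast]

theorem odd_dvd {N q i : ℕ} :
    (N : ℤ) ∣ (-(q : ℤ)) ^ (2 * i + 1) - 1 ↔ N ∣ q ^ (2 * i + 1) + 1 := by
  have h2 : (-(q : ℤ)) ^ (2 * i + 1) - 1 = -((q ^ (2 * i + 1) + 1 : ℕ) : ℤ) := by
    rw [Odd.neg_pow (odd_two_mul_add_one i)]
    push_cast
    ring
  rw [h2, dvd_neg, Int.natCast_dvd_natCast]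

/-- the valuation of `q ^ k + 1` for odd `k` -/
theorem lte {p q k : ℕ} (hp : p.Prime) (hp2 : p ≠ 2) (hpq : ¬ p ∣ q) (h : p ∣ q + 1)
    (hk : Odd k) : padicValNat p (q ^ k + 1) = padicValNat p (q + 1) + padicValNat p k := by
  have hf : Fact p.Prime := ⟨hp⟩
  have hpo : Odd p := hp.odd_of_ne_two hp2
  have := padicValNat.pow_add_pow hpo (x := q) (y := 1) h hpq hk
  simpa using this

/-- GUO -/
theorem guo (hGEX : GexStmt) (hGUB : GubStmt) (hGUD : GudStmt) : GuoStmt := by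
  intro K _ _ _ q p c n g hq hn hp hp2 hpK hc hord
  obtain ⟨mu, hmu, hmuord⟩ := exists_eig hGEX p c n g hp hpK hc hord
  have hNpos : 0 < p ^ c := pow_pos hp.pos _
  have hq1 : 1 ≤ q := by have := hq.two_le; omega
  have hb := hGUB K q n g mu hq hmu
  rw [hmuord] at hb
  obtain ⟨e, he, hen, hiff⟩ := exists_ord (p ^ c) q n hNpos hb
  have hpq : ¬ p ∣ q := not_dvd_q hq hp hpK
  have hself := (hiff e).2 dvd_rfl
  rcases Nat.even_or_odd' e with ⟨i, hi | hi⟩
  · left
    refine ⟨i, by omega, by omega, ?_⟩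
    rw [hi, even_dvd hq1] at hself
    have h6 : q ^ (2 * i) - 1 = (q ^ i - 1) * (q ^ i + 1) := by
      rw [mul_comm 2 i, pow_mul, mul_comm (q ^ i - 1), ← Nat.sq_sub_sq, one_pow]
    rw [h6] at hself
    exact split_dvd hp hp2 (Nat.one_le_pow _ _ hq1) hself
  · rw [hi, odd_dvd] at hself
    by_cases hi0 : i = 0
    · left
      rw [hi0] at hself
      refine ⟨1, le_rfl, by omega, Or.inr ?_⟩
      simpa using hself
    by_cases hpd : p ∣ q + 1
    · right; right
      have hf : Fact p.Prime := ⟨hp⟩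
      set s := padicValNat p (q + 1) with hs
      have hs1 : 1 ≤ s := one_le_padicValNat_of_dvd (by omega) hpd
      have hsdvd : p ^ s ∣ q + 1 := pow_padicValNat_dvd
      have hsc : s < c := by
        by_contra hcon
        push Not at hcon
        have h1 : p ^ c ∣ q + 1 := (pow_dvd_pow p hcon).trans hsdvd
        have h2 := (hiff 1).1 (by
          have := (odd_dvd (N := p ^ c) (q := q) (i := 0)).2 (by simpa using h1)
          simpa using this)
        have := Nat.le_of_dvd (by norm_num) h2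
        omega
      have hpo : Odd p := hp.odd_of_ne_two hp2
      -- `e` divides `p ^ (c - s)`
      have hodd : Odd (p ^ (c - s)) := hpo.pow
      have hval1 : padicValNat p (q ^ (p ^ (c - s)) + 1) = c := by
        rw [lte hp hp2 hpq hpd hodd, padicValNat.prime_pow]
        omega
      have hd1 : p ^ c ∣ q ^ (p ^ (c - s)) + 1 := by
        have := pow_padicValNat_dvd (p := p) (n := q ^ (p ^ (c - s)) + 1)
        rwa [hval1] at this
      obtain ⟨k, hk⟩ := hodd
      have hed : e ∣ p ^ (c - s) := by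
        apply (hiff _).1
        rw [hk, odd_dvd, ← hk]
        exact hd1
      obtain ⟨i', hi', hei⟩ := (Nat.dvd_prime_pow hp).1 hed
      have hee : Odd e := ⟨i, hi⟩
      have hval2 : padicValNat p (q ^ e + 1) = s + i' := by
        rw [lte hp hp2 hpq hpd hee, hei, padicValNat.prime_pow]
      rw [← hi] at hself
      have hle : c ≤ s + i' := by
        rw [← hval2]
        exact (padicValNat_dvd_iff_le (by omega)).1 hself
      have hii : i' = c - s := by omega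
      refine ⟨c - s, s, by omega, hs1, by omega, hsdvd, ?_⟩
      rw [← hii, ← hei]
      by_contra hcon
      have hne : e = n := by omega
      have hdet := hGUD K q n g mu hq hmu (by
        intro j hj hjn hd
        rw [hmuord] at hd
        have := Nat.le_of_dvd hj ((hiff j).1 hd)
        omega)
      rw [hmuord] at hdet
      have hgeom := geom_sum_mul (-(q : ℤ)) n
      have h3 : ((p ^ (c + s) : ℕ) : ℤ) ∣ (-(q : ℤ)) ^ n - 1 := by
        rw [← hgeom, pow_add, Nat.cast_mul]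
        apply mul_dvd_mul hdet
        have h4 : -(q : ℤ) - 1 = -((q + 1 : ℕ) : ℤ) := by push_cast; ring
        rw [h4, dvd_neg, Int.natCast_dvd_natCast]
        exact hsdvd
      rw [← hne, hi, odd_dvd, ← hi] at h3
      have h5 := (padicValNat_dvd_iff_le (by omega)).1 h3
      omega
    · right; left
      refine ⟨i, by omega, by omega, hpd, hself, ?_⟩
      intro j hj hji hd
      have h1 := (hiff (2 * j)).1 ((even_dvd hq1).2 hd)
      have hee : Odd e := ⟨i, hi⟩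
      have h2 : Nat.Coprime e 2 := by rw [Nat.coprime_two_right]; exact hee
      have h3 := h2.dvd_of_dvd_mul_left h1
      have := Nat.le_of_dvd hj h3
      omega

/-- GUT -/
theorem gut (hGEX : GexStmt) (hGUB : GubStmt) (hGUD : GudStmt) : GutStmt := by
  intro K _ _ _ q c n g hq hn h2K hord
  by_cases hc : c = 0
  · exact ⟨1, le_rfl, by omega, by rw [hc]; simp⟩
  have hc1 : 1 ≤ c := by omega
  have h2K' : ((2 : ℕ) : K) ≠ 0 := by exact_mod_cast h2K
  obtain ⟨mu, hmu, hmuord⟩ := exists_eig hGEX 2 c n g Nat.prime_two h2K' hc1 hord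
  have hNpos : 0 < 2 ^ c := by positivity
  have hq1 : 1 ≤ q := by have := hq.two_le; omega
  have hb := hGUB K q n g mu hq hmu
  rw [hmuord] at hb
  obtain ⟨e, he, hen, hiff⟩ := exists_ord (2 ^ c) q n hNpos hb
  have hpq : ¬ 2 ∣ q := not_dvd_q hq Nat.prime_two h2K'
  have hself := (hiff e).2 dvd_rfl
  have hqo : Odd q := by
    rw [← Nat.not_even_iff_odd, even_iff_two_dvd]
    exact hpq
  -- `e` is a power of two
  have hep : e ∣ 2 ^ (c - 1) := by
    apply (hiff _).1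
    by_cases hc2 : c = 1
    · subst hc2
      have h1 : Odd (-(q : ℤ)) := by
        have : Odd (q : ℤ) := by exact_mod_cast hqo
        exact this.neg
      have h2 : Even ((-(q : ℤ)) ^ (2 ^ (1 - 1)) - 1) := h1.pow.sub_odd odd_one
      simpa using h2.two_dvd
    have hcop : Nat.Coprime q (2 ^ c) := Nat.Coprime.pow_right _ (by
      rw [Nat.coprime_two_right]; exact hqo)
    have h1 := Nat.ModEq.pow_totient hcop
    rw [Nat.totient_prime_pow Nat.prime_two hc1] at h1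
    simp only [Nat.add_one_sub_one, mul_one] at h1
    obtain ⟨k, hk⟩ : ∃ k, 2 ^ (c - 1) = 2 * k :=
      (dvd_pow_self 2 (by omega : c - 1 ≠ 0))
    rw [hk, even_dvd hq1, ← hk]
    exact (Nat.modEq_iff_dvd' (Nat.one_le_pow _ _ hq1)).1 h1.symm
  obtain ⟨k, hk, hek⟩ := (Nat.dvd_prime_pow Nat.prime_two).1 hep
  have hsq : ∀ h : (2 ^ c : ℕ) ∣ q ^ (2 * 1) - 1, ∃ m : ℕ, 1 ≤ m ∧ 2 * m + 1 ≤ n ∧
      2 ^ c ∣ q ^ (2 * m) - 1 := fun h => ⟨1, le_rfl, by omega, h⟩
  by_cases hk2 : k ≤ 1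
  · apply hsq
    rw [← even_dvd hq1]
    apply (hiff _).2
    rw [hek]
    calc 2 ^ k ∣ 2 ^ 1 := pow_dvd_pow 2 hk2
      _ = 2 * 1 := by norm_num
  push Not at hk2
  obtain ⟨k', rfl⟩ : ∃ k', k = k' + 2 := ⟨k - 2, by omega⟩
  set b := 2 ^ k' with hb'
  have hbpos : 0 < b := by positivity
  have heb : e = 2 * (2 * b) := by rw [hek, pow_add, hb']; ring
  by_cases hlt : e < n
  · refine ⟨2 * b, by omega, by omega, ?_⟩
    rw [← even_dvd hq1, ← heb]
    exact hself
  have hne : e = n := by omega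
  have hdet := hGUD K q n g mu hq hmu (by
    intro j hj hjn hd
    rw [hmuord] at hd
    have := Nat.le_of_dvd hj ((hiff j).1 hd)
    omega)
  rw [hmuord] at hdet
  refine ⟨b, by omega, by omega, ?_⟩
  rw [← even_dvd hq1]
  -- `q ^ (2 b) - 1 = (q + 1) T`
  have hgeom := geom_sum_mul (-(q : ℤ)) n
  have hgeom2 := geom_sum_mul (-(q : ℤ)) (2 * b)
  set T : ℤ := ∑ i ∈ Finset.range (2 * b), (-(q : ℤ)) ^ i with hT
  set Sg : ℤ := ∑ i ∈ Finset.range n, (-(q : ℤ)) ^ i with hSg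
  have hqz : (-(q : ℤ) - 1) ≠ 0 := by
    have : (1 : ℤ) ≤ (q : ℤ) := by exact_mod_cast hq1
    omega
  have hST : Sg = T * ((-(q : ℤ)) ^ (2 * b) + 1) := by
    apply mul_right_cancel₀ hqz
    rw [hgeom, mul_right_comm, hgeom2, ← hne, heb, mul_comm 2 (2 * b), pow_mul]
    ring
  -- `q ^ (2 b) + 1 = 2 u`, `u` odd
  obtain ⟨t, ht⟩ := hqo
  obtain ⟨u, hu⟩ : ∃ u : ℤ, (-(q : ℤ)) ^ (2 * b) + 1 = 2 * (2 * u + 1) := by
    have h1 : Odd ((-(q : ℤ)) ^ b) := by
      have : Odd (q : ℤ) := by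
        rw [ht]; exact ⟨(t : ℤ), by push_cast; ring⟩
      exact this.neg.pow
    obtain ⟨v, hv⟩ := h1
    refine ⟨v ^ 2 + v, ?_⟩
    rw [mul_comm 2 b, pow_mul, hv]
    ring
  rw [← hgeom2]
  have hcop : IsCoprime (((2 ^ c : ℕ) : ℤ)) (2 * u + 1) := by
    push_cast
    apply IsCoprime.pow_left
    exact ⟨-u, 1, by ring⟩
  have h1 : ((2 ^ c : ℕ) : ℤ) ∣ T * 2 := by
    apply hcop.dvd_of_dvd_mul_right
    rw [mul_assoc, ← hu, ← hST]
    exact hdet
  refine h1.trans (mul_dvd_mul_left T ?_)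
  rw [ht]
  exact ⟨-((t : ℤ) + 1), by push_cast; ring⟩

end Pool.Agent.Eng.H72
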