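import Pool.Agent.Helper99_Eng3.Stmts

/-!
Squad ENG3 (MP_da8eb3_al), module OHYB: hyperbolic bases over totally singular subspaces.
-/

set_option autoImplicit false

namespace Pool.Agent.Eng.H72

open QuadraticMap

/-- OHYB -/
theorem ohyb : OhybStmt := by
  intro F V _ _ _ _ Q e W hND hW hW0
  classical
  set B : LinearMap.BilinForm F V := Q.polarBilin with hB
  have hBdef : ∀ x y, B x y = polar Q x y := fun x y => rfl
  have hQadd : ∀ x y, Q (x + y) = Q x + Q y + B x y := by
    intro x y
    rw [hBdef, polar]
    ring
  let w := Module.finBasisOfFinrankEq F W hW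
  -- the restriction map is onto
  let R : V →ₗ[F] (Fin e → F) := LinearMap.pi fun i => B (w i : V)
  have hR : LinearMap.range R = ⊤ := by
    by_contra hne
    obtain ⟨f, hf0, hf⟩ := Submodule.exists_le_ker_of_lt_top _ (lt_top_iff_ne_top.2 hne)
    apply hf0
    have h1 : ∀ v : V, f (R v) = 0 := fun v => hf (LinearMap.mem_range_self R v)
    have h2 : (∑ i, f (Pi.single i 1) • (w i : V)) = 0 := by
      apply hND
      intro v
      rw [← hBdef, map_sum, LinearMap.sum_apply]
      have h3 := h1 v
      rw [LinearMap.pi_apply_eq_sum_univ f] at h3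
      rw [← h3]
      refine Finset.sum_congr rfl fun i _ => ?_
      rw [map_smul, LinearMap.smul_apply, smul_eq_mul, smul_eq_mul, mul_comm]
      congr 1
      congr 1
      ext j
      by_cases hij : i = j
      · subst hij; simp
      · simp [hij]
    have h4 : ∀ i, f (Pi.single i 1) = 0 := by
      have h5 : (∑ i, f (Pi.single i 1) • (w i)) = 0 := by
        apply Subtype.ext
        rw [Submodule.coe_sum, Submodule.coe_zero]
        exact h2
      exact fun i => Fintype.linearIndependent_iff.1 w.linearIndependent _ h5 i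
    apply LinearMap.pi_ext
    intro i x
    have h6 : (Pi.single i x : Fin e → F) = x • Pi.single i 1 := by
      rw [← Pi.single_smul]; simp
    rw [h6, map_smul, h4]
    simp
  have hu : ∀ j, ∃ u : V, R u = Pi.single j 1 := by
    intro j
    have : (Pi.single j 1 : Fin e → F) ∈ LinearMap.range R := by rw [hR]; trivial
    exact this
  choose u hu using hu
  obtain ⟨C, hC⟩ := LinearMap.BilinMap.toQuadraticMap_surjective Q
  have hC' : ∀ x, C x x = Q x := by
    intro x
    rw [← hC]
    rfl
  let L : (Fin e → F) →ₗ[F] V := Fintype.linearCombination F fun i => (w i : V)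
  let U : (Fin e → F) →ₗ[F] V := Fintype.linearCombination F u
  let T : (Fin e → F) →ₗ[F] (Fin e → F) := LinearMap.pi fun i => (C (u i)).comp U
  have hL : ∀ a, L a = ∑ i, a i • (w i : V) := fun a => Fintype.linearCombination_apply F _ a
  have hU : ∀ a, U a = ∑ i, a i • u i := fun a => Fintype.linearCombination_apply F _ a
  have hQL : ∀ a, Q (L a) = 0 := by
    intro a
    apply hW0
    rw [hL]
    exact Submodule.sum_mem _ fun i _ => Submodule.smul_mem _ _ (w i).2
  have hQU : ∀ b, Q (U b) = ∑ i, b i * T b i := by
    intro b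
    rw [← hC']
    have h1 : C (U b) = ∑ i, b i • C (u i) := by
      rw [hU, map_sum]
      exact Finset.sum_congr rfl fun i _ => map_smul _ _ _
    rw [h1, LinearMap.sum_apply]
    exact Finset.sum_congr rfl fun i _ => rfl
  have hwU : ∀ i b, B (w i : V) (U b) = b i := by
    intro i b
    rw [hU, map_sum]
    have : ∀ j, B (w i : V) (b j • u j) = b j * (Pi.single j (1 : F) : Fin e → F) i := by
      intro j
      rw [map_smul, smul_eq_mul, ← hu j]
      rfl
    rw [Finset.sum_congr rfl fun j _ => this j]
    rw [Finset.sum_eq_single i]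
    · simp
    · intro j _ hj
      rw [Pi.single_eq_of_ne (Ne.symm hj), mul_zero]
    · intro h
      exact absurd (Finset.mem_univ i) h
  have hBLU : ∀ a b, B (L a) (U b) = ∑ i, a i * b i := by
    intro a b
    rw [hL, map_sum, LinearMap.sum_apply]
    refine Finset.sum_congr rfl fun i _ => ?_
    rw [map_smul, LinearMap.smul_apply, smul_eq_mul, hwU]
  let X := Fin e → F
  let ι : (X × X) →ₗ[F] V := L.comp (LinearMap.fst F X X - T.comp (LinearMap.snd F X X)) +
    U.comp (LinearMap.snd F X X)
  refine ⟨ι, ?_⟩
  intro a b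
  have h1 : ι (a, b) = L (a - T b) + U b := rfl
  rw [h1, hQadd, hQL, hQU, hBLU, zero_add, ← Finset.sum_add_distrib]
  refine Finset.sum_congr rfl fun i _ => ?_
  simp only [Pi.sub_apply]
  ring

end Pool.Agent.Eng.H72
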