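import Pool.Agent.Helper99_Eng3.Stmts

/-!
Squad ENG3 (MP_da8eb3_al), module OTT: the 2-part of the exponent in characteristic 2.
-/

set_option autoImplicit false

namespace Pool.Agent.Eng.H72

open QuadraticMap

/-- In characteristic 2 a nondegenerate quadratic form has even dimension. -/
theorem even_finrank {F V : Type} [Field F] [AddCommGroup V] [Module F V]
    [FiniteDimensional F V] (Q : QuadraticForm F V) (hND : ND Q) (h2 : (2 : F) = 0) :
    Even (Module.finrank F V) := by
  set B : LinearMap.BilinForm F V := Q.polarBilin with hB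
  have hBdef : ∀ x y, B x y = polar Q x y := fun x y => rfl
  have hself : ∀ x, B x x = 0 := by
    intro x
    rw [hBdef, polar_self, two_smul, ← two_mul, h2, zero_mul]
  have hsym : ∀ x y, B x y = B y x := fun x y => polar_comm _ _ _
  have hker : B.ker = ⊥ := by
    rw [Submodule.eq_bot_iff]
    intro x hx
    apply hND
    intro v
    rw [← hBdef, LinearMap.mem_ker.1 hx]
    rfl
  obtain ⟨W, hW, hmax⟩ := WellFounded.has_min (wellFounded_gt : WellFounded
    (fun a b : Submodule F V => a > b)) {W | ∀ x ∈ W, ∀ y ∈ W, B x y = 0}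
    ⟨⊥, by
      intro x hx y _
      rw [(Submodule.mem_bot F).1 hx, map_zero]
      rfl⟩
  have hWW : B.orthogonal W = W := by
    apply le_antisymm
    · intro v hv
      rw [LinearMap.BilinForm.mem_orthogonal_iff] at hv
      by_contra hvW
      have h1 : ∀ x ∈ W ⊔ Submodule.span F {v}, ∀ y ∈ W ⊔ Submodule.span F {v}, B x y = 0 := by
        intro x hx y hy
        obtain ⟨w, hw, z, hz, rfl⟩ := Submodule.mem_sup.1 hx
        obtain ⟨w', hw', z', hz', rfl⟩ := Submodule.mem_sup.1 hy
        obtain ⟨a, rfl⟩ := Submodule.mem_span_singleton.1 hz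
        obtain ⟨a', rfl⟩ := Submodule.mem_span_singleton.1 hz'
        have e1 : B w v = 0 := hv w hw
        have e2 : B v w' = 0 := by rw [hsym]; exact hv w' hw'
        have e3 : B w w' = 0 := hW w hw w' hw'
        simp only [map_add, map_smul, LinearMap.add_apply, LinearMap.smul_apply, smul_eq_mul,
          e1, e2, e3, hself, mul_zero, add_zero]
      apply hmax _ h1
      refine lt_of_le_of_ne le_sup_left ?_
      intro heq
      apply hvW
      rw [heq]
      exact Submodule.mem_sup_right (Submodule.mem_span_singleton_self v)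
    · intro v hv
      rw [LinearMap.BilinForm.mem_orthogonal_iff]
      intro n hn
      exact hW n hn v hv
  have h := LinearMap.BilinForm.finrank_add_finrank_orthogonal' (B := B) W
  rw [hWW, hker, inf_bot_eq, finrank_bot, add_zero] at h
  exact ⟨_, h.symm⟩

/-- OTT -/
theorem ott (hFLIFT : LiftStmt) (hGUN : GunStmt) (hOT8 : Ot8Stmt) (hOTE : OteStmt)
    (hOTK : OtkStmt) : OttStmt := by
  intro F V _ _ _ _ _ Q k hND h7 h2 hy d hd hlaw
  by_cases hk : k ≤ 3
  · have h8 := hOT8 F V Q hND h2 h7 d hd hlaw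
    exact (pow_dvd_pow 2 hk).trans h8
  push Not at hk
  have : Finite V := Module.finite_of_finite F
  have : Finite (V ≃ₗ[F] V) :=
    Finite.of_injective (fun g : V ≃ₗ[F] V => (g : V → V)) DFunLike.coe_injective
  have hp : CharP F 2 := CharTwo.of_one_ne_zero_of_two_eq_zero one_ne_zero h2
  obtain ⟨g, c, hgc, hgk⟩ := hFLIFT ↥(OmV Q) (Subgroup.center ↥(OmV Q)) 2 k Nat.prime_two hy
  have hkc : k ≤ c := by
    have h1 : orderOf (QuotientGroup.mk g : POm Q) ∣ orderOf g :=
      orderOf_map_dvd (QuotientGroup.mk' (Subgroup.center ↥(OmV Q))) g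
    rw [hgc, hgk] at h1
    exact (Nat.pow_dvd_pow_iff_le_right (by norm_num)).1 h1
  -- matrix of `g`
  have hbig : 2 ^ (k - 1) < Module.finrank F V := by
    by_contra hcon
    push Not at hcon
    set b := Module.finBasis F V
    let T : (V ≃ₗ[F] V) → Matrix (Fin (Module.finrank F V)) (Fin (Module.finrank F V)) F :=
      fun g => LinearMap.toMatrix b b (g : V →ₗ[F] V)
    have hT : ∀ (g : V ≃ₗ[F] V) (n : ℕ), T g ^ n = T (g ^ n) := by
      intro g n
      induction n with
      | zero =>
        change 1 = LinearMap.toMatrix b b (LinearMap.id)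
        rw [LinearMap.toMatrix_id]
      | succ n ih =>
        rw [pow_succ, ih, pow_succ]
        change _ = LinearMap.toMatrix b b (((g ^ n : V ≃ₗ[F] V) : V →ₗ[F] V) ∘ₗ (g : V →ₗ[F] V))
        rw [LinearMap.toMatrix_comp b b b]
    have hT1 : ∀ g : V ≃ₗ[F] V, T g = 1 → g = 1 := by
      intro g hg
      have h1 : LinearMap.toMatrix b b (g : V →ₗ[F] V) = LinearMap.toMatrix b b LinearMap.id := by
        rw [LinearMap.toMatrix_id]
        exact hg
      have h2 := (LinearMap.toMatrix b b).injective h1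
      ext v
      exact LinearMap.congr_fun h2 v
    have hT1' : T 1 = 1 := by
      change LinearMap.toMatrix b b (LinearMap.id) = 1
      rw [LinearMap.toMatrix_id]
    have h3 : T (g : V ≃ₗ[F] V) ^ (2 ^ c) = 1 := by
      have h5 : (g : V ≃ₗ[F] V) ^ (2 ^ c) = 1 := by
        have := pow_orderOf_eq_one g
        rw [hgc] at this
        exact congrArg Subtype.val this
      rw [hT, h5, hT1']
    have h4 := hGUN F (Fin (Module.finrank F V)) 2 (T g) c (k - 1) Nat.prime_two h3
      (by rw [Fintype.card_fin]; exact hcon)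
    rw [hT] at h4
    have h5 := hT1 _ h4
    have h6 : g ^ (2 ^ (k - 1)) = 1 := Subtype.ext h5
    have h7 := orderOf_dvd_of_pow_eq_one h6
    rw [hgc] at h7
    have h8 := (Nat.pow_dvd_pow_iff_le_right (by norm_num)).1 h7
    omega
  obtain ⟨n, hn⟩ := even_finrank Q hND h2
  obtain ⟨t, rfl⟩ : ∃ t, k = t + 2 := ⟨k - 2, by omega⟩
  obtain ⟨U, _, _, _, P, hP, hU, hOD⟩ := hOTK t (by omega)
  have hbig' : 2 ^ (t + 1) + 2 ≤ Module.finrank F V := by
    have e1 : t + 2 - 1 = t + 1 := rfl
    rw [e1] at hbig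
    have e2 : 2 ^ (t + 1) = 2 * 2 ^ t := by rw [pow_succ, mul_comm]
    omega
  have h2U : 2 ≤ Module.finrank (ZMod 2) U := by
    rw [hU]
    calc 2 = 2 ^ 1 := rfl
      _ ≤ 2 ^ (t + 1) := Nat.pow_le_pow_right (by norm_num) (by omega)
  exact hOD d hd (hOTE F V U Q P hND hP h2 h2U (by rw [hU]; exact hbig') d hlaw)

end Pool.Agent.Eng.H72
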